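import Pool.Agent.H.MP_e52733_co.Defs

set_option autoImplicit false

namespace Pool.Agent.H.MP_e52733_co

open Finset Classical

/-- `v` is the mod 2 sum of prefix sets. -/
def Cov {n m : ℕ} (l : Fin m → Fin n → ℕ) (v : Fin n → ZMod 2) : Prop :=
  ∃ p : Fin m → ℕ, ∀ b, v b = ∑ i, if l i b < p i then 1 else 0

theorem realize {X ι : Type} [Fintype ι] (P : PartialOrder X) (κ : ι → X → ℤ ×ₗ ℤ)
    (hκ : ∀ i, Function.Injective (κ i))
    (H : ∀ x y x' y', x ≠ y → x' ≠ y' → (∀ i, κ i x < κ i y ↔ κ i x' < κ i y') →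
      P.lt x y → P.lt x' y') :
    ∃ L τ, IsRealizer P (Fintype.card ι) L τ := by
  let e := Fintype.equivFin ι
  let L : Fin (Fintype.card ι) → LinearOrder X := fun i =>
    LinearOrder.lift' (κ (e.symm i)) (hκ _)
  have hL : ∀ i x y, (L i).lt x y ↔ κ (e.symm i) x < κ (e.symm i) y := fun i x y => Iff.rfl
  refine ⟨L, fun q => decide (∃ x y, x ≠ y ∧ P.lt x y ∧
    (fun i => decide ((L i).lt x y)) = q), fun x y hxy => ?_⟩
  simp only [decide_eq_true_eq]
  constructor
  · intro h; exact ⟨x, y, hxy, h, rfl⟩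
  · rintro ⟨x', y', h1, h2, h3⟩
    refine H x' y' x y h1 hxy (fun i => ?_) h2
    have := congrFun h3 (e i)
    simp only [decide_eq_decide, hL, Equiv.symm_apply_apply] at this
    exact this

theorem bits (a b a' b' : Bool) (i j i' j' : ℤ) (h : i ≠ j) (h' : i' ≠ j')
    (h0 : i < j ↔ i' < j')
    (h1 : toLex ((a.toNat : ℤ), i) < toLex ((b.toNat : ℤ), j) ↔
      toLex ((a'.toNat : ℤ), i') < toLex ((b'.toNat : ℤ), j'))
    (h2 : toLex (-(a.toNat : ℤ), i) < toLex (-(b.toNat : ℤ), j) ↔
      toLex (-(a'.toNat : ℤ), i') < toLex (-(b'.toNat : ℤ), j'))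
    (h3 : toLex ((a.toNat : ℤ), if a then i else -i) < toLex ((b.toNat : ℤ), if b then j else -j) ↔
      toLex ((a'.toNat : ℤ), if a' then i' else -i') <
        toLex ((b'.toNat : ℤ), if b' then j' else -j')) : a = a' ∧ b = b' := by
  simp only [Prod.Lex.toLex_lt_toLex] at h1 h2 h3
  cases a <;> cases b <;> cases a' <;> cases b' <;> simp at h1 h2 h3 ⊢ <;> omega

theorem upper {X : Type} [Fintype X] (P : PartialOrder X) (A B : Finset X) {n m D : ℕ}
    (hd : Disjoint A B) (hu : ∀ x, x ∈ A ∨ x ∈ B) (hA : ∀ x ∈ A, ∀ y ∈ A, ¬ P.lt x y)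
    (hB : B.card = n) (hD : n + 1 ≤ 2 ^ D) (l : Fin m → Fin n → ℕ) (hl : ∀ v, Cov l v) :
    ∃ L τ, IsRealizer P (1 + (D * 3 + m)) L τ := by
  let e : B ≃ Fin n := (Finset.equivFinOfCardEq hB)
  let c : X → ℕ := fun x => if h : x ∈ B then e ⟨x, h⟩ + 1 else 0
  have hc : ∀ x, c x < 2 ^ D := fun x => by
    simp only [c]; split_ifs with h
    · have := (e ⟨x, h⟩).2; omega
    · positivity
  have hcB : ∀ x y, x ∈ B → c x = c y → x = y := by
    intro x y hx h
    simp only [c, dif_pos hx] at h
    split_ifs at h with hy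
    · have : e ⟨x, hx⟩ = e ⟨y, hy⟩ := Fin.ext (by omega)
      simpa using e.injective this
  have hcA : ∀ x y, x ∈ A → c x = c y → y ∈ A := by
    intro x y hx h
    rcases hu y with hy | hy
    · exact hy
    · rw [hcB y x hy h.symm] at hy; exact absurd hy (disjoint_left.1 hd hx)
  let idx : X → ℤ := fun x => (Fintype.equivFin X x : ℕ)
  have hidx : Function.Injective idx := fun x y h => by
    simp only [idx, Nat.cast_inj] at h
    exact (Fintype.equivFin X).injective (Fin.ext h)
  choose p hp using fun a : X => hl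
    (fun b => if P.lt a (e.symm b) ∨ P.lt (e.symm b) a then 1 else 0)
  let β : Fin D → X → Bool := fun j x => (c x).testBit j
  let w : Fin m → X → ℤ := fun i x => if h : x ∈ B then 2 * l i (e ⟨x, h⟩) + 1 else 2 * p x i
  let κ : Unit ⊕ (Fin D × Fin 3) ⊕ Fin m → X → ℤ ×ₗ ℤ := fun i x => match i with
    | .inl _ => toLex (0, idx x)
    | .inr (.inl (j, 0)) => toLex (((β j x).toNat : ℤ), idx x)
    | .inr (.inl (j, 1)) => toLex (-((β j x).toNat : ℤ), idx x)
    | .inr (.inl (j, 2)) => toLex (((β j x).toNat : ℤ), if β j x then idx x else -idx x)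
    | .inr (.inr i) => toLex (w i x, idx x)
  have hκ : ∀ i, Function.Injective (κ i) := by
    rintro (_ | ⟨j, k⟩ | i) x y h
    · exact hidx (by simpa [κ] using h)
    · fin_cases k
      · simp only [κ, toLex_inj, Prod.mk.injEq] at h; exact hidx h.2
      · simp only [κ, toLex_inj, Prod.mk.injEq] at h; exact hidx h.2
      · simp only [κ, toLex_inj, Prod.mk.injEq] at h
        apply hidx
        obtain ⟨h1, h2⟩ := h
        cases hx : β j x <;> cases hy : β j y <;> simp [hx, hy] at h1 h2 <;> exact h2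
    · simp only [κ, toLex_inj, Prod.mk.injEq] at h; exact hidx h.2
  have key : ∀ a a' b, a ∈ A → a' ∈ A → b ∈ B →
      (∀ i, w i b < w i a ↔ w i b < w i a') → (P.lt a b ∨ P.lt b a) → (P.lt a' b ∨ P.lt b a') := by
    intro a a' b ha ha' hb h hab
    have h1 := hp a (e ⟨b, hb⟩)
    have h2 := hp a' (e ⟨b, hb⟩)
    simp only [Equiv.symm_apply_apply] at h1 h2
    have h3 : ∀ i, l i (e ⟨b, hb⟩) < p a i ↔ l i (e ⟨b, hb⟩) < p a' i := by
      intro i
      have := h i
      simp only [w, dif_pos hb, dif_neg (disjoint_left.1 hd ha),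
        dif_neg (disjoint_left.1 hd ha')] at this
      omega
    simp only [h3] at h1
    rw [← h2, if_pos hab] at h1
    by_contra hn
    rw [if_neg hn] at h1
    exact one_ne_zero h1
  have wne : ∀ i a b, a ∈ A → b ∈ B → w i a ≠ w i b := by
    intro i a b ha hb
    simp only [w, dif_pos hb, dif_neg (disjoint_left.1 hd ha)]
    omega
  have := realize P κ hκ (fun x y x' y' hxy hxy' H hlt => by
    have hb : ∀ j, β j x = β j x' ∧ β j y = β j y' := fun j =>
      bits _ _ _ _ _ _ _ _ (hidx.ne hxy) (hidx.ne hxy')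
        (by simpa [κ, Prod.Lex.toLex_lt_toLex] using H (.inl ()))
        (H (.inr (.inl (j, 0)))) (H (.inr (.inl (j, 1)))) (H (.inr (.inl (j, 2))))
    have ext : ∀ u v, (∀ j, β j u = β j v) → c u = c v := fun u v h => by
      apply Nat.eq_of_testBit_eq
      intro j
      by_cases hj : j < D
      · exact h ⟨j, hj⟩
      · have h2 : 2 ^ D ≤ 2 ^ j := Nat.pow_le_pow_right (by norm_num) (by omega)
        rw [Nat.testBit_lt_two_pow ((hc u).trans_le h2), Nat.testBit_lt_two_pow ((hc v).trans_le h2)]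
    have cx := ext _ _ (fun j => (hb j).1)
    have cy := ext _ _ (fun j => (hb j).2)
    have hw : ∀ i, (w i x < w i y ∨ w i x = w i y ∧ idx x < idx y) ↔
        (w i x' < w i y' ∨ w i x' = w i y' ∧ idx x' < idx y') := fun i => by
      simpa only [κ, Prod.Lex.toLex_lt_toLex] using H (.inr (.inr i))
    rcases hu x with hx | hx <;> rcases hu y with hy | hy
    · exact absurd hlt (hA x hx y hy)
    · obtain rfl := hcB y y' hy cy
      have hx' := hcA x x' hx cx
      rcases key x x' y hx hx' hy (fun i => by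
        have := hw i; have := wne i x y hx hy; have := wne i x' y hx' hy; omega) (Or.inl hlt)
        with h | h
      · exact h
      · exact absurd (@lt_trans _ P.toPreorder _ _ _ hlt h) (hA x hx x' hx')
    · obtain rfl := hcB x x' hx cx
      have hy' := hcA y y' hy cy
      rcases key y y' x hy hy' hx (fun i => by
        have := hw i; have := wne i y x hy hx; have := wne i y' x hy' hx; omega) (Or.inr hlt)
        with h | h
      · exact absurd (@lt_trans _ P.toPreorder _ _ _ h hlt) (hA y' hy' y hy)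
      · exact h
    · obtain rfl := hcB x x' hx cx
      obtain rfl := hcB y y' hy cy
      exact hlt)
  have hcard : Fintype.card (Unit ⊕ (Fin D × Fin 3) ⊕ Fin m) = 1 + (D * 3 + m) := by simp
  rwa [hcard] at this

theorem triv (n : ℕ) : ∃ l : Fin n → Fin n → ℕ, ∀ v, Cov l v := by
  refine ⟨fun i b => if i = b then 0 else 1, fun v => ⟨fun i => if v i = 1 then 1 else 0, fun b => ?_⟩⟩
  rw [sum_eq_single b]
  · have : ∀ x : ZMod 2, x = if 0 < (if x = 1 then 1 else 0 : ℕ) then 1 else 0 := by decide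
    simpa using this (v b)
  · intro i _ hi
    simp only [if_neg hi]
    split_ifs <;> first | rfl | omega
  · simp

theorem vals_le {n m D d : ℕ} (hD : n + 1 ≤ 2 ^ D) (l : Fin m → Fin n → ℕ) (hl : ∀ v, Cov l v)
    (hd : d ∈ vals n) : d ≤ 1 + (D * 3 + m) := by
  obtain ⟨X, _, P, A, B, h1, h2, h3, h4, rfl⟩ := hd
  exact Nat.sInf_le ⟨by omega, upper P A B h1 h2 h3 h4 hD l hl⟩

theorem bdd (n : ℕ) : BddAbove (vals n) := by
  obtain ⟨l, hl⟩ := triv n
  exact ⟨_, fun d hd => vals_le (D := n + 1) Nat.lt_two_pow_self.le l hl hd⟩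

theorem lower (n : ℕ) : ∃ d ∈ vals n, 2 ^ n ≤ (n + 1) ^ d := by
  let R : Finset (Fin n) ⊕ Fin n → Finset (Fin n) ⊕ Fin n → Prop := fun x y =>
    ∃ i S, x = .inr i ∧ y = .inl S ∧ i ∈ S
  let P : PartialOrder (Finset (Fin n) ⊕ Fin n) :=
    { le := fun x y => x = y ∨ R x y
      lt := R
      le_refl := fun x => Or.inl rfl
      le_trans := by
        rintro x y z (rfl | h) (rfl | h')
        · exact Or.inl rfl
        · exact Or.inr h'
        · exact Or.inr h
        · obtain ⟨i, S, -, rfl, -⟩ := h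
          obtain ⟨i', S', h, -, -⟩ := h'
          cases h
      lt_iff_le_not_ge := by
        intro x y
        constructor
        · rintro ⟨i, S, rfl, rfl, h⟩
          refine ⟨Or.inr ⟨i, S, rfl, rfl, h⟩, ?_⟩
          rintro (h | ⟨i', S', h, -, -⟩) <;> cases h
        · rintro ⟨rfl | h, h'⟩
          · exact absurd (Or.inl rfl) h'
          · exact h
      le_antisymm := by
        rintro x y (rfl | h) h'
        · rfl
        · rcases h' with h' | h'
          · exact h'.symm
          · obtain ⟨i, S, -, rfl, -⟩ := h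
            obtain ⟨i', S', h, -, -⟩ := h'
            cases h }
  have h1 : Disjoint (univ.map (Function.Embedding.inl (α := Finset (Fin n)) (β := Fin n)))
      (univ.map Function.Embedding.inr) := by
    rw [disjoint_left]; rintro (x | x) <;> simp
  have h2 : ∀ x : Finset (Fin n) ⊕ Fin n, x ∈ univ.map Function.Embedding.inl ∨
      x ∈ univ.map Function.Embedding.inr := by rintro (x | x) <;> simp
  have h3 : ∀ x ∈ univ.map (Function.Embedding.inl (α := Finset (Fin n)) (β := Fin n)),
      ∀ y ∈ univ.map (Function.Embedding.inl (α := Finset (Fin n)) (β := Fin n)), ¬ P.lt x y := by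
    rintro x hx y - ⟨i, S, rfl, -, -⟩
    simp at hx
  have h4 : (univ.map (Function.Embedding.inr (α := Finset (Fin n)) (β := Fin n))).card = n := by
    simp
  refine ⟨bdim P, ⟨_, inferInstance, P, _, _, h1, h2, h3, h4, rfl⟩, ?_⟩
  obtain ⟨l, hl⟩ := triv n
  obtain ⟨-, L, τ, hL⟩ := Nat.sInf_mem (s := {d | 1 ≤ d ∧ ∃ L τ, IsRealizer P d L τ})
    ⟨_, by omega, upper P _ _ h1 h2 h3 h4 (D := n + 1) Nat.lt_two_pow_self.le l hl⟩
  let T : Finset (Fin n) → Fin (bdim P) → Finset (Fin n) := fun S j =>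
    univ.filter (fun i => (L j).lt (.inr i) (.inl S))
  let g : Finset (Fin n) → Fin (bdim P) → Fin (n + 1) := fun S j =>
    ⟨(T S j).card, Nat.lt_succ_of_le (by simpa using card_le_univ (T S j))⟩
  have hg : Function.Injective g := by
    intro S S' h
    have hT : ∀ j, T S j = T S' j := by
      intro j
      have hc : (T S j).card = (T S' j).card := congrArg Fin.val (congrFun h j)
      have mono : ∀ U U' : Finset (Fin n), (L j).le (.inl U) (.inl U') → T U j ⊆ T U' j := by
        intro U U' hU i hi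
        simp only [T, mem_filter, mem_univ, true_and] at hi ⊢
        exact @lt_of_lt_of_le _ (L j).toPreorder _ _ _ hi hU
      rcases (L j).le_total (.inl S) (.inl S') with h | h
      · exact eq_of_subset_of_card_le (mono _ _ h) hc.ge
      · exact (eq_of_subset_of_card_le (mono _ _ h) hc.le).symm
    ext i
    have e1 : i ∈ S ↔ P.lt (.inr i) (.inl S) :=
      ⟨fun h => ⟨i, S, rfl, rfl, h⟩, fun ⟨_, _, h1, h2, h3⟩ => by cases h1; cases h2; exact h3⟩
    have e2 : i ∈ S' ↔ P.lt (.inr i) (.inl S') :=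
      ⟨fun h => ⟨i, S', rfl, rfl, h⟩, fun ⟨_, _, h1, h2, h3⟩ => by cases h1; cases h2; exact h3⟩
    rw [e1, e2, hL _ _ (by simp), hL _ _ (by simp)]
    have : (fun j => decide ((L j).lt (.inr i) (.inl S))) =
        (fun j => decide ((L j).lt (.inr i) (.inl S'))) := by
      funext j
      have := Finset.ext_iff.1 (hT j) i
      simp only [T, mem_filter, mem_univ, true_and] at this
      exact decide_eq_decide.2 this
    rw [this]
  simpa using Fintype.card_le_of_injective g hg

end Pool.Agent.H.MP_e52733_co
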