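import Pool.Agent.H.MP_e52733_co.A
import Pool.Agent.H.MP_9a58dc_co.A

set_option autoImplicit false

namespace Pool.Agent.H.MP_e52733_co

open Finset Classical

theorem double {n m : ℕ} (l : Fin m → Fin n → ℕ) :
    ∃ l' : Fin (m + 1) → Fin n → ℕ, ((univ.filter (fun v => ¬ Cov l' v)).card : ℝ) ≤
      (univ.filter (fun v => ¬ Cov l v)).card *
        ((univ.filter (fun v => ¬ Cov l v)).card / 2 ^ n) := by
  set c : ℝ := ((univ.filter (fun v => ¬ Cov l v)).card : ℝ) with hc
  have hN : (Fintype.card (Fin n → ZMod 2) : ℝ) = 2 ^ n := by simp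
  have h1 : ((univ.filter (fun v => Cov l v)).card : ℝ) + c = 2 ^ n := by
    rw [hc, ← hN]
    exact_mod_cast card_filter_add_card_filter_not (s := univ) (fun v => Cov l v)
  have hc0 : 0 ≤ c / 2 ^ n := by positivity
  obtain ⟨δ, -, h⟩ := MP_9a58dc_co.greedy (univ.filter (fun v => ¬ Cov l v))
    (univ : Finset (Fin n → ZMod 2)) univ_nonempty (fun δ v => Cov l (v + δ)) (1 - c / 2 ^ n)
    (by linarith) (fun v _ => by
      rw [card_univ, hN]
      have : (univ.filter (fun v => Cov l v)).card ≤ (univ.filter (fun δ => Cov l (v + δ))).card := by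
        apply card_le_card_of_injOn (fun u => u - v)
        · intro u hu; simpa using hu
        · exact sub_left_injective.injOn
      have h2 : ((univ.filter (fun v => Cov l v)).card : ℝ) ≤
        (univ.filter (fun δ => Cov l (v + δ))).card := by exact_mod_cast this
      have h3 : (1 - c / 2 ^ n) * 2 ^ n = 2 ^ n - c := by field_simp
      rw [h3]
      refine le_trans (by linarith) (h2.trans (le_of_eq ?_))
      congr) 1
  refine ⟨Fin.cons (fun b => if δ 0 b = 1 then 0 else 1) l, le_trans ?_ (h.trans (by simp [hc]))⟩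
  rw [Nat.cast_le]
  apply card_le_card
  intro v hv
  simp only [mem_filter, mem_univ, true_and, Nat.lt_one_iff, forall_eq] at hv ⊢
  constructor
  · rintro ⟨p, hp⟩
    exact hv ⟨Fin.cons 0 p, fun b => by
      simp only [Fin.sum_univ_succ, Fin.cons_zero, Fin.cons_succ, Nat.not_lt_zero, if_false,
        zero_add]; exact hp b⟩
  · rintro ⟨p, hp⟩
    refine hv ⟨Fin.cons 1 p, fun b => ?_⟩
    have := hp b
    simp only [Pi.add_apply] at this
    simp only [Fin.sum_univ_succ, Fin.cons_zero, Fin.cons_succ, ← this]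
    have key : ∀ x y : ZMod 2,
        x = (if (if y = 1 then 0 else 1 : ℕ) < 1 then 1 else 0) + (x + y) := by decide
    exact key _ _

theorem iterate {n m : ℕ} (l : Fin m → Fin n → ℕ) (a : ℝ) (ha : 0 ≤ a)
    (h : ((univ.filter (fun v => ¬ Cov l v)).card : ℝ) ≤ 2 ^ n * a) : ∀ t : ℕ,
    ∃ l' : Fin (m + t) → Fin n → ℕ,
      ((univ.filter (fun v => ¬ Cov l' v)).card : ℝ) ≤ 2 ^ n * a ^ (2 ^ t) := by
  intro t
  induction t with
  | zero => exact ⟨l, by simpa using h⟩
  | succ t ih =>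
    obtain ⟨l', h'⟩ := ih
    obtain ⟨l'', h''⟩ := double l'
    refine ⟨l'', h''.trans ?_⟩
    have h2 : ((univ.filter (fun v => ¬ Cov l' v)).card : ℝ) / 2 ^ n ≤ a ^ (2 ^ t) := by
      rw [div_le_iff₀ (by positivity)]; linarith
    refine (mul_le_mul h' h2 (by positivity) (by positivity)).trans (le_of_eq ?_)
    rw [pow_succ, pow_mul]; ring

noncomputable def chi (z : ZMod 2) : ℝ := if z = 0 then 1 else -1

theorem chi_add (a b : ZMod 2) : chi (a + b) = chi a * chi b := by
  have : ∀ x : ZMod 2, x = 0 ∨ x = 1 := by decide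
  have h11 : (1 : ZMod 2) + 1 = 0 := by decide
  rcases this a with rfl | rfl <;> rcases this b with rfl | rfl <;> simp [chi, h11]

theorem chi_sum {ι : Type} (s : Finset ι) (z : ι → ZMod 2) :
    chi (∑ i ∈ s, z i) = ∏ i ∈ s, chi (z i) := by
  induction s using Finset.induction_on with
  | empty => simp [chi]
  | insert i s hi ih => rw [sum_insert hi, prod_insert hi, chi_add, ih]

theorem ind_eq (a b : ZMod 2) : (if a = b then (1 : ℝ) else 0) = (1 + chi a * chi b) / 2 := by
  have : ∀ x : ZMod 2, x = 0 ∨ x = 1 := by decide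
  rcases this a with rfl | rfl <;> rcases this b with rfl | rfl <;> simp [chi]

noncomputable def sg (x p : ℕ) : ℝ := chi (if x < p then 1 else 0)

theorem corr {r : ℕ} (p q : Fin r) : 0 ≤ ∑ x : Fin (2 * r), sg x p * sg x q ∧
    ∑ x : Fin (2 * r), sg x p * sg x q ≤ 2 * r * (if p = q then 1 else 1 - 1 / (r : ℝ)) := by
  wlog h : p ≤ q generalizing p q
  · have := this q p (le_of_not_ge h)
    simpa only [mul_comm (sg _ q), eq_comm (a := q)] using this
  have hr : (0 : ℝ) < r := by exact_mod_cast p.pos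
  have e : ∑ x : Fin (2 * r), sg x p * sg x q = 2 * r - 2 * ((q : ℝ) - p) := by
    rw [Fin.sum_univ_eq_sum_range (fun x => sg x p * sg x q)]
    have e1 : ∀ x : ℕ, sg x p * sg x q = 1 - 2 * (if x ∈ Ico (p : ℕ) q then 1 else 0) := by
      intro x
      have hpq : (p : ℕ) ≤ q := h
      simp only [sg, chi, mem_Ico]
      by_cases h1 : x < p <;> by_cases h2 : x < q
      · rw [if_neg (by omega : ¬ ((p : ℕ) ≤ x ∧ x < q))]; simp [h1, h2]
      · omega
      · rw [if_pos (by omega : ((p : ℕ) ≤ x ∧ x < q))]; simp [h1, h2]; norm_num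
      · rw [if_neg (by omega : ¬ ((p : ℕ) ≤ x ∧ x < q))]; simp [h1, h2]
    simp only [e1, sum_sub_distrib, ← mul_sum, sum_boole, sum_const, card_range]
    have e2 : filter (fun x => x ∈ Ico (p : ℕ) q) (range (2 * r)) = Ico (p : ℕ) q := by
      ext x; simp only [mem_filter, mem_range, mem_Ico]; have := q.2; omega
    rw [e2, Nat.card_Ico, Nat.cast_sub h]; simp
  rw [e]
  have h1 : (q : ℝ) ≤ r := by exact_mod_cast q.2.le
  have h2 : (0 : ℝ) ≤ p := by positivity
  refine ⟨by linarith, ?_⟩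
  split_ifs with hpq
  · subst hpq; simp
  · have : (p : ℕ) + 1 ≤ q := lt_of_le_of_ne h hpq
    have : (p : ℝ) + 1 ≤ q := by exact_mod_cast this
    have e3 : 2 * (r : ℝ) * (1 - 1 / r) = 2 * r - 2 := by field_simp
    linarith

theorem binom (n K : ℕ) (U : ℝ) (h0 : 0 ≤ U) (h1 : U ≤ 1) :
    (1 + U) ^ n ≤ (n + 1) ^ K + 2 ^ n * U ^ K := by
  have hg : ∀ K : ℕ, ∑ k ∈ range K, (n : ℝ) ^ k ≤ (n + 1) ^ K := by
    intro K
    induction K with
    | zero => simp
    | succ K ih =>
      rw [sum_range_succ, pow_succ]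
      have a1 : (n : ℝ) ^ K ≤ (n + 1) ^ K := pow_le_pow_left₀ (by positivity) (by linarith) K
      rcases Nat.eq_zero_or_pos n with rfl | hn
      · rcases K with _ | K
        · simp
        · simp only [Nat.cast_zero, zero_add, one_pow] at ih ⊢
          simpa using ih
      · have a2 : (1 : ℝ) ≤ n := by exact_mod_cast hn
        have a3 := mul_le_mul_of_nonneg_left a2 (by positivity : (0 : ℝ) ≤ (n + 1) ^ K)
        linarith
  rw [add_comm 1 U, add_pow]
  have h2 : (2 : ℝ) ^ n = ∑ k ∈ range (n + 1), (n.choose k : ℝ) := by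
    exact_mod_cast (Nat.sum_range_choose n).symm
  have h3 : ∀ k ∈ range (n + 1), U ^ k * 1 ^ (n - k) * (n.choose k : ℝ) ≤
      (if k ∈ range K then (n : ℝ) ^ k else 0) + n.choose k * U ^ K := by
    intro k _
    rw [one_pow, mul_one]
    split_ifs with hk
    · have a1 : (n.choose k : ℝ) ≤ n ^ k := by exact_mod_cast Nat.choose_le_pow _ _
      have a2 := mul_le_mul_of_nonneg_right (pow_le_one₀ (n := k) h0 h1)
        (Nat.cast_nonneg (α := ℝ) (n.choose k))
      have a3 : 0 ≤ (n.choose k : ℝ) * U ^ K := by positivity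
      linarith
    · have a1 : U ^ k ≤ U ^ K := pow_le_pow_of_le_one h0 h1 (by simpa using hk)
      have := mul_le_mul_of_nonneg_right a1 (Nat.cast_nonneg (α := ℝ) (n.choose k))
      linarith
  refine (sum_le_sum h3).trans ?_
  rw [sum_add_distrib, ← sum_mul, ← h2, ← sum_filter]
  have := sum_le_sum_of_subset_of_nonneg (f := fun k => (n : ℝ) ^ k)
    (fun k hk => (mem_filter.1 hk).2 : filter (fun k => k ∈ range K) (range (n + 1)) ⊆ range K)
    (fun _ _ _ => by positivity)
  linarith [hg K]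

theorem second {n m r K : ℕ} (hr : 0 < r) (hK : (1 - 1 / (r : ℝ)) ^ K ≤ 1 / r)
    (hm : (2 : ℝ) ^ n * 2 ^ m ≤ r ^ m) :
    ∃ l : Fin m → Fin n → ℕ, (2 : ℝ) ^ n / (2 * (n + 1) ^ K) ≤
      (univ.filter (fun v => Cov l v)).card := by
  have hr' : (0 : ℝ) < r := by exact_mod_cast hr
  haveI : NeZero r := ⟨hr.ne'⟩
  haveI : NeZero (2 * r) := ⟨by omega⟩
  let φ : (Fin n → Fin m → Fin (2 * r)) → (Fin m → Fin r) → (Fin n → ZMod 2) :=
    fun l p b => ∑ i, if (l b i : ℕ) < p i then 1 else 0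
  let col : (Fin n → Fin m → Fin (2 * r)) → ℝ := fun l =>
    ∑ p, ∑ q, if φ l p = φ l q then 1 else 0
  let g : Fin r → Fin r → ℝ := fun p q => (∑ x : Fin (2 * r), sg x p * sg x q) / (2 * r)
  have g0 : ∀ p q, 0 ≤ g p q := fun p q => div_nonneg (corr p q).1 (by positivity)
  have g1 : ∀ p q, g p q ≤ if p = q then 1 else 1 - 1 / (r : ℝ) := fun p q => by
    simp only [g]; rw [div_le_iff₀ (by positivity)]; exact (corr p q).2.trans (le_of_eq (mul_comm _ _))
  have g2 : ∀ p q, g p q ≤ 1 := fun p q => (g1 p q).trans (by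
    split_ifs
    · rfl
    · have : 0 ≤ 1 / (r : ℝ) := by positivity
      linarith)
  have g3 : ∀ p, ∑ q, g p q ^ K ≤ 2 := by
    intro p
    have : ∀ q, g p q ^ K ≤ (if p = q then 1 else 0) + 1 / (r : ℝ) := by
      intro q
      have := pow_le_pow_left₀ (g0 p q) (g1 p q) K
      split_ifs at this ⊢
      · have : 0 ≤ 1 / (r : ℝ) := by positivity
        rw [one_pow] at *; linarith
      · linarith
    refine (sum_le_sum fun q _ => this q).trans ?_
    rw [sum_add_distrib]
    simp only [sum_ite_eq, mem_univ, if_true, sum_const, card_univ, Fintype.card_fin, nsmul_eq_mul]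
    rw [mul_one_div_cancel hr'.ne']; norm_num
  set W : ℝ := ((2 * r) ^ m) ^ n with hW
  have pair : ∀ p q, ∑ l, (if φ l p = φ l q then (1 : ℝ) else 0) =
      W * ((1 + ∏ i, g (p i) (q i)) ^ n / 2 ^ n) := by
    intro p q
    have e1 : ∀ l, (if φ l p = φ l q then (1 : ℝ) else 0) =
        ∏ b, (1 + ∏ i, sg (l b i) (p i) * sg (l b i) (q i)) / 2 := by
      intro l
      have e0 : (if φ l p = φ l q then (1 : ℝ) else 0) =
          ∏ b, if φ l p b = φ l q b then (1 : ℝ) else 0 := by
        rw [prod_boole]; simp [funext_iff]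
      rw [e0]
      apply prod_congr rfl
      intro b _
      have := ind_eq (φ l p b) (φ l q b)
      simp only [φ, chi_sum] at this
      simp only [φ, sg, prod_mul_distrib]
      convert this
    simp only [e1]
    rw [← Fintype.sum_pow (fun y : Fin m → Fin (2 * r) =>
      (1 + ∏ i, sg (y i) (p i) * sg (y i) (q i)) / 2) n, hW, ← div_pow, ← mul_pow]
    congr 1
    rw [← sum_div, sum_add_distrib]
    have e2 := prod_univ_sum (fun _ : Fin m => (univ : Finset (Fin (2 * r))))
      (fun i x => sg x (p i) * sg x (q i))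
    rw [Fintype.piFinset_univ] at e2
    rw [← e2]
    simp only [g, prod_div_distrib, prod_const, card_univ, Fintype.card_fin, sum_const,
      Fintype.card_fun, nsmul_eq_mul]
    push_cast
    field_simp
  have tot : ∑ l, col l ≤ ∑ _l : Fin n → Fin m → Fin (2 * r),
      (r ^ m * r ^ m * (2 * (n + 1) ^ K / 2 ^ n) : ℝ) := by
    have e1 : ∑ l, col l = ∑ p, ∑ q, ∑ l, (if φ l p = φ l q then (1 : ℝ) else 0) := by
      simp only [col]
      rw [sum_comm]
      exact sum_congr rfl fun p _ => sum_comm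
    have e2 : ∀ p : Fin m → Fin r, ∑ q : Fin m → Fin r, (∏ i, g (p i) (q i)) ^ K ≤ 2 ^ m := by
      intro p
      have e2 := prod_univ_sum (fun _ : Fin m => (univ : Finset (Fin r)))
        (fun i x => g (p i) x ^ K)
      rw [Fintype.piFinset_univ] at e2
      simp only [← prod_pow]
      rw [← e2]
      refine (prod_le_prod (fun i _ => sum_nonneg fun q _ => pow_nonneg (g0 _ _) _)
        (fun i _ => g3 (p i))).trans (by simp)
    have hW0 : 0 ≤ W := by positivity
    have e3 : ∀ p : Fin m → Fin r, ∑ q, ∑ l, (if φ l p = φ l q then (1 : ℝ) else 0) ≤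
        W * (r ^ m * (2 * (n + 1) ^ K / 2 ^ n)) := by
      intro p
      simp only [pair]
      rw [← mul_sum]
      apply mul_le_mul_of_nonneg_left _ hW0
      have a1 : ∀ q : Fin m → Fin r, (1 + ∏ i, g (p i) (q i)) ^ n / 2 ^ n ≤
          (n + 1) ^ K / 2 ^ n + (∏ i, g (p i) (q i)) ^ K := by
        intro q
        have := binom n K (∏ i, g (p i) (q i)) (prod_nonneg fun i _ => g0 _ _)
          (prod_le_one (fun i _ => g0 _ _) (fun i _ => g2 _ _))
        rw [div_le_iff₀ (by positivity), add_mul, div_mul_cancel₀ _ (by positivity)]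
        linarith
      refine (sum_le_sum fun q _ => a1 q).trans ?_
      rw [sum_add_distrib]
      simp only [sum_const, card_univ, Fintype.card_fun, Fintype.card_fin, nsmul_eq_mul]
      have a2 : (2 : ℝ) ^ m ≤ r ^ m * ((n + 1) ^ K / 2 ^ n) := by
        have a3 : (1 : ℝ) ≤ (n + 1) ^ K := one_le_pow₀ (by linarith [Nat.cast_nonneg (α := ℝ) n])
        rw [← mul_div_assoc, le_div_iff₀ (by positivity)]
        have := mul_le_mul_of_nonneg_left a3 (by positivity : (0 : ℝ) ≤ r ^ m)
        linarith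
      have := e2 p
      push_cast
      have e : (r : ℝ) ^ m * (2 * (n + 1) ^ K / 2 ^ n) = 2 * (r ^ m * ((n + 1) ^ K / 2 ^ n)) := by
        ring
      linarith
    rw [e1]
    refine (sum_le_sum fun p _ => e3 p).trans (le_of_eq ?_)
    simp only [sum_const, card_univ, Fintype.card_fun, Fintype.card_fin, nsmul_eq_mul, hW]
    push_cast; ring
  obtain ⟨l, -, hl⟩ := exists_le_of_sum_le univ_nonempty tot
  refine ⟨fun i b => l b i, ?_⟩
  set S := univ.filter (fun v => Cov (fun i b => (l b i : ℕ)) v) with hS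
  have hmem : ∀ p, φ l p ∈ S := fun p => by
    simp only [hS, mem_filter, mem_univ, true_and]
    exact ⟨fun i => p i, fun b => rfl⟩
  have cs := sq_sum_le_card_mul_sum_sq (s := S)
    (f := fun v => ∑ p, if φ l p = v then (1 : ℝ) else 0)
  have c1 : ∑ v ∈ S, ∑ p, (if φ l p = v then (1 : ℝ) else 0) = r ^ m := by
    rw [sum_comm]
    simp [hmem]
  have c2 : ∑ v ∈ S, (∑ p, if φ l p = v then (1 : ℝ) else 0) ^ 2 = col l := by
    simp only [sq, sum_mul_sum, col]
    rw [sum_comm]
    apply sum_congr rfl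
    intro p _
    rw [sum_comm]
    apply sum_congr rfl
    intro q _
    simp only [ite_mul, one_mul, zero_mul, sum_ite_eq, hmem, if_true]
    simp only [eq_comm]
  rw [c1, c2] at cs
  have c3 := cs.trans (mul_le_mul_of_nonneg_left hl (Nat.cast_nonneg _))
  have c4 : (0 : ℝ) < r ^ m * r ^ m := by positivity
  rw [div_le_iff₀ (by positivity)]
  have c5 : (S.card : ℝ) * (r ^ m * r ^ m * (2 * (n + 1) ^ K / 2 ^ n)) =
      r ^ m * r ^ m * (S.card * (2 * (n + 1) ^ K) / 2 ^ n) := by ring
  rw [c5, sq] at c3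
  have c6 := (le_mul_iff_one_le_right c4).1 c3
  rwa [one_le_div (by positivity)] at c6

theorem f_le {n m r K D : ℕ} (hr : 0 < r) (hK : (1 - 1 / (r : ℝ)) ^ K ≤ 1 / r)
    (hm : (2 : ℝ) ^ n * 2 ^ m ≤ r ^ m) (hD : n + 1 ≤ 2 ^ D) :
    f n ≤ 1 + (D * 3 + (m + (K + 2) * D)) := by
  obtain ⟨l, hl⟩ := second hr hK hm
  set α : ℝ := 1 / (2 * (n + 1) ^ K) with hα
  have hn0 : (0 : ℝ) ≤ n := Nat.cast_nonneg n
  have a3 : (1 : ℝ) ≤ (n + 1) ^ K := one_le_pow₀ (by linarith)
  have hα1 : α ≤ 1 := by rw [hα, div_le_one (by positivity)]; linarith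
  have hN : (Fintype.card (Fin n → ZMod 2) : ℝ) = 2 ^ n := by simp
  have h1 : ((univ.filter (fun v => Cov l v)).card : ℝ) +
      (univ.filter (fun v => ¬ Cov l v)).card = 2 ^ n := by
    rw [← hN]
    exact_mod_cast card_filter_add_card_filter_not (s := univ) (fun v => Cov l v)
  obtain ⟨l', hl'⟩ := iterate l (1 - α) (by linarith) (by
    have : (2 : ℝ) ^ n / (2 * (n + 1) ^ K) = 2 ^ n * α := by rw [hα]; ring
    linarith) ((K + 2) * D)
  have h2 : (2 : ℝ) ^ n * (1 - α) ^ (2 ^ ((K + 2) * D)) < 1 := by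
    have b1 : (1 - α) ^ (2 ^ ((K + 2) * D)) ≤ Real.exp (-α) ^ (2 ^ ((K + 2) * D)) :=
      pow_le_pow_left₀ (by linarith) (by have := Real.add_one_le_exp (-α); linarith) _
    have b2 : (2 : ℝ) ^ n ≤ Real.exp 1 ^ n :=
      pow_le_pow_left₀ (by norm_num) (by have := Real.add_one_le_exp (1 : ℝ); linarith) _
    refine (mul_le_mul b2 b1 (pow_nonneg (by linarith) _) (by positivity)).trans_lt ?_
    rw [← Real.exp_nat_mul, ← Real.exp_nat_mul, ← Real.exp_add, Real.exp_lt_one_iff]
    have b3 : ((n : ℝ) + 1) ^ (K + 2) ≤ ((2 ^ ((K + 2) * D) : ℕ) : ℝ) := by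
      rw [mul_comm, pow_mul]
      exact_mod_cast Nat.pow_le_pow_left hD _
    have b4 := mul_le_mul_of_nonneg_right b3 (by positivity : 0 ≤ α)
    have b5 : ((n : ℝ) + 1) ^ (K + 2) * α = (n + 1) ^ 2 / 2 := by rw [hα]; field_simp; ring
    nlinarith [sq_nonneg (n : ℝ)]
  have h3 := Nat.lt_one_iff.1 (by exact_mod_cast hl'.trans_lt h2)
  rw [card_eq_zero, filter_eq_empty_iff] at h3
  exact csSup_le' fun d hd => vals_le hD l' (fun v => not_not.1 (h3 (mem_univ v))) hd

end Pool.Agent.H.MP_e52733_co
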