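import Pool.Agent.H.MP_e52733_co.B

set_option autoImplicit false

namespace Pool.Agent.H.MP_e52733_co

open Filter Topology

theorem f_ge (n : ℕ) : 2 ^ n ≤ (n + 1) ^ f n := by
  obtain ⟨d, hd, h⟩ := lower n
  exact h.trans (Nat.pow_le_pow_right (by omega) (le_csSup (bdd n) hd))

theorem f_upper {n : ℕ} {γ x : ℝ} (hγ : 0 < γ) (hγ1 : γ ≤ 1 / 4) (hn : 1 ≤ n)
    (hx : x = Real.log n) (hx2 : 2 ≤ x) (hx3 : 1 / γ ≤ x) :
    (f n : ℝ) ≤ n * Real.log 2 / ((1 - 2 * γ) * x) + 30 * x ^ 2 * Real.exp ((1 - γ) * x) := by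
  have hn' : (1 : ℝ) ≤ n := by exact_mod_cast hn
  have hl2 := Real.log_two_gt_d9
  have hl2' := Real.log_two_lt_d9
  set E := Real.exp ((1 - γ) * x) with hE
  have hγx : 1 ≤ γ * x := by rw [div_le_iff₀ hγ] at hx3; linarith
  have hE1 : 1 ≤ E := Real.one_le_exp (by nlinarith)
  set r := ⌈E⌉₊ with hr
  have hr1 : E ≤ r := Nat.le_ceil _
  have hr2 : (r : ℝ) ≤ 2 * E := by
    have := (Nat.ceil_lt_add_one (by linarith : 0 ≤ E)).le; linarith
  have hr0 : (1 : ℝ) ≤ r := by linarith
  have hlr1 : (1 - γ) * x ≤ Real.log r := by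
    rw [Real.le_log_iff_exp_le (by linarith)]; exact hr1
  have hlr2 : Real.log r ≤ x := by
    have := Real.log_le_log (by linarith) hr2
    rw [Real.log_mul (by norm_num) (by linarith), hE, Real.log_exp] at this
    linarith
  set L := ⌈Real.log r⌉₊ with hL
  have hL1 : Real.log r ≤ L := Nat.le_ceil _
  have hL2 : (L : ℝ) ≤ 2 * x := by
    have := (Nat.ceil_lt_add_one (Real.log_nonneg hr0)).le; linarith
  have hθ : 0 < (1 - 2 * γ) * x := mul_pos (by linarith) (by linarith)
  set m := ⌈n * Real.log 2 / ((1 - 2 * γ) * x)⌉₊ with hm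
  have hm1 : n * Real.log 2 / ((1 - 2 * γ) * x) ≤ m := Nat.le_ceil _
  have hm2 : (m : ℝ) ≤ n * Real.log 2 / ((1 - 2 * γ) * x) + 1 :=
    (Nat.ceil_lt_add_one (by positivity)).le
  set D := ⌈2 * x⌉₊ + 1 with hD
  have hD1 : 2 * x + 1 ≤ D := by rw [hD]; push_cast; linarith [Nat.le_ceil (2 * x)]
  have hD2 : (D : ℝ) ≤ 3 * x := by
    rw [hD]; push_cast; linarith [(Nat.ceil_lt_add_one (by linarith : 0 ≤ 2 * x)).le]
  have key := f_le (n := n) (m := m) (r := r) (K := r * L) (D := D)
    (by exact_mod_cast (by linarith : (0 : ℝ) < r)) (by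
      have a0 : 1 / (r : ℝ) ≤ 1 := by rw [div_le_one (by linarith)]; exact hr0
      refine (pow_le_pow_left₀ (by linarith) (by
        have := Real.add_one_le_exp (-(1 / (r : ℝ))); linarith :
          1 - 1 / (r : ℝ) ≤ Real.exp (-(1 / (r : ℝ)))) _).trans ?_
      rw [← Real.exp_nat_mul]
      have a1 : ((r * L : ℕ) : ℝ) * -(1 / (r : ℝ)) = -L := by push_cast; field_simp
      rw [a1, one_div, ← Real.exp_log (by linarith : (0 : ℝ) < r), ← Real.exp_neg]
      exact Real.exp_le_exp.2 (by linarith)) (by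
      rw [← Real.log_le_log_iff (by positivity) (by positivity),
        Real.log_mul (by positivity) (by positivity), Real.log_pow, Real.log_pow, Real.log_pow]
      rw [div_le_iff₀ hθ] at hm1
      have a1 : (1 - 2 * γ) * x + Real.log 2 ≤ Real.log r := by linarith
      have := mul_le_mul_of_nonneg_left a1 (Nat.cast_nonneg (α := ℝ) m)
      linarith) (by
      have : (n : ℝ) + 1 ≤ 2 ^ D := by
        have a1 : (n : ℝ) + 1 ≤ 2 * n := by linarith
        refine a1.trans ?_
        rw [← Real.log_le_log_iff (by positivity) (by positivity),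
          Real.log_mul (by norm_num) (by positivity), Real.log_pow, ← hx]
        have := mul_le_mul_of_nonneg_right hD1 (by linarith : 0 ≤ Real.log 2)
        have := mul_le_mul_of_nonneg_left (by linarith : 1 / 2 ≤ Real.log 2) (by linarith : 0 ≤ x)
        linarith
      exact_mod_cast this)
  have key' : (f n : ℝ) ≤ 1 + (D * 3 + (m + (r * L + 2) * D)) := by exact_mod_cast key
  have b1 : (r : ℝ) * L ≤ 2 * E * (2 * x) := mul_le_mul hr2 hL2 (by positivity) (by positivity)
  have b2 : ((r : ℝ) * L + 2) * D ≤ (2 * E * (2 * x) + 2) * (3 * x) :=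
    mul_le_mul (by linarith) hD2 (by positivity) (by positivity)
  have b3 : x ≤ x ^ 2 * E := by
    have := mul_le_mul (by nlinarith : x ≤ x ^ 2) hE1 (by norm_num) (by positivity)
    linarith
  linarith

end Pool.Agent.H.MP_e52733_co
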