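import Mathlib

set_option autoImplicit false

namespace Pool.Agent.H.MP_e52733_co

open Classical

/-- Boolean realizer of size `d` of the poset `P` on `X`. -/
def IsRealizer {X : Type} (P : PartialOrder X) (d : ℕ) (L : Fin d → LinearOrder X)
    (τ : (Fin d → Bool) → Bool) : Prop :=
  ∀ x y : X, x ≠ y → (P.lt x y ↔ τ (fun i => decide ((L i).lt x y)) = true)

/-- Boolean dimension. -/
noncomputable def bdim {X : Type} (P : PartialOrder X) : ℕ :=
  sInf {d | 1 ≤ d ∧ ∃ L τ, IsRealizer P d L τ}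

/-- Boolean dimensions of the finite posets that are an antichain plus `n` points. -/
def vals (n : ℕ) : Set ℕ :=
  {d | ∃ (X : Type) (_ : Fintype X) (P : PartialOrder X) (A B : Finset X),
    Disjoint A B ∧ (∀ x, x ∈ A ∨ x ∈ B) ∧ (∀ x ∈ A, ∀ y ∈ A, ¬ P.lt x y) ∧ B.card = n ∧
      d = bdim P}

noncomputable def f (n : ℕ) : ℕ := sSup (vals n)

end Pool.Agent.H.MP_e52733_co
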